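import Pool.Agent.helper17.RX.Spec

/-!
# Project RX, row ENV: the entropy theorem for the coins of the lattice
-/

set_option autoImplicit false

namespace TP.TW

open DP MeasureTheory Finset

/-- Enumeration of a finite set of sites. -/
noncomputable def ENV_en (W : Finset V) (i : Fin #W) : V := (W.equivFin.symm i : V)

open Classical in
/-- Extension by `false`. -/
noncomputable def ENV_ext (W : Finset V) (x : Fin #W → Bool) (v : V) : Bool :=
  if h : v ∈ W then x (W.equivFin ⟨v, h⟩) else false

lemma ENV_en_inj (W : Finset V) : Function.Injective (ENV_en W) := by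
  intro i j h
  exact W.equivFin.symm.injective (Subtype.ext h)

lemma ENV_en_mem (W : Finset V) (i : Fin #W) : ENV_en W i ∈ W := (W.equivFin.symm i).2

lemma ENV_en_surj (W : Finset V) (v : V) (h : v ∈ W) : ∃ i, ENV_en W i = v :=
  ⟨W.equivFin ⟨v, h⟩, by simp [ENV_en]⟩

lemma ENV_ext_en (W : Finset V) (x : Fin #W → Bool) (i : Fin #W) :
    ENV_ext W x (ENV_en W i) = x i := by
  unfold ENV_ext
  rw [dif_pos (ENV_en_mem W i)]
  have h : (⟨ENV_en W i, ENV_en_mem W i⟩ : {v // v ∈ W}) = W.equivFin.symm i := rfl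
  rw [h, Equiv.apply_symm_apply]

lemma ENV_ext_res (W : Finset V) (β : V → Bool) (v : V) (h : v ∈ W) :
    ENV_ext W (fun i => β (ENV_en W i)) v = β v := by
  obtain ⟨i, rfl⟩ := ENV_en_surj W v h
  rw [ENV_ext_en]

lemma ENV_dep (Ω : Finset V) (S : ℕ → (V → Bool) → Finset V) (h : Rnd Ω S) (i : ℕ)
    (β β' : V → Bool) (hb : ∀ v ∈ Ω, β v = β' v) : S i β = S i β' := by
  obtain ⟨h0, h1, h2⟩ := h
  cases i with
  | zero => rw [h0, h0]
  | succ i => exact h2 i β β' (fun v hv => hb v ((h1 i β).2 hv))

open Classical in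
theorem ENV (enx : EN.ENX_stmt) (prn : PRN_stmt) : ENV_stmt := by
  intro κ T S Ω Λ z N E j hE hR hN
  have hprob : IsProbabilityMeasure DP.P1 := by unfold DP.P1; infer_instance
  have hnn : ∀ F : Set (V → Bool), 0 ≤ Pr F := fun F => by
    unfold DP.Pr
    exact measureReal_nonneg
  have hle1 : ∀ F : Set (V → Bool), Pr F ≤ 1 := fun F => by
    unfold DP.Pr
    exact measureReal_le_one
  have hmono : ∀ F G : Set (V → Bool), F ⊆ G → Pr F ≤ Pr G := fun F G h => by
    unfold DP.Pr
    exact measureReal_mono h (measure_ne_top _ _)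
  have hN0 : 0 ≤ N := (sum_nonneg fun τ _ => hnn _).trans (hN 0 z (mem_insert_self z Λ))
  rcases (hnn E).eq_or_lt with hp | hp
  · rw [← hp, zero_mul]
    refine sum_nonpos ?_
    intro τ _
    rw [hp]
    exact hmono _ _ Set.inter_subset_left
  · obtain ⟨W, hW⟩ : ∃ W : Finset V, W = Ω ∪ insert z Λ := ⟨_, rfl⟩
    have hΩW : ∀ v ∈ Ω, v ∈ W := fun v hv => by
      rw [hW]
      exact mem_union_left _ hv
    have hzW : z ∈ W := by
      rw [hW]
      exact mem_union_right _ (mem_insert_self z Λ)
    have hΛW : ∀ v ∈ Λ, v ∈ W := fun v hv => by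
      rw [hW]
      exact mem_union_right _ (mem_insert_of_mem hv)
    have hP : ∀ P : (Fin #W → Bool) → Prop,
        Pr {β : V → Bool | P (fun i => β (ENV_en W i))} =
          (#(univ.filter fun x : Fin #W → Bool => P x) : ℝ) / 2 ^ #W := fun P =>
      prn #W (ENV_en W) (ENV_en_inj W) P
    have hS : ∀ τ ∈ T, ∀ i β, S τ i (ENV_ext W (fun i => β (ENV_en W i))) = S τ i β :=
      fun τ hτ i β => ENV_dep Ω (S τ) (hR τ hτ) i _ _ fun v hv => ENV_ext_res W β v (hΩW v hv)
    have hEx : ∀ β : V → Bool, ENV_ext W (fun i => β (ENV_en W i)) ∈ E ↔ β ∈ E :=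
      fun β => hE _ _ fun v hv => ENV_ext_res W β v (hΛW v hv)
    obtain ⟨z', hz'⟩ := ENV_en_surj W z hzW
    set Λ' : Finset (Fin #W) := univ.filter (fun u => ENV_en W u ∈ Λ) with hΛ'
    set S' : κ → ℕ → EN.Om #W → Finset (Fin #W) := fun τ i x =>
      univ.filter (fun u => ENV_en W u ∈ S τ i (ENV_ext W x)) with hS'
    have hmS' : ∀ τ i x u, u ∈ S' τ i x ↔ ENV_en W u ∈ S τ i (ENV_ext W x) := by
      intro τ i x u
      rw [hS']
      simp
    have hRS : ∀ τ ∈ T, EN.Rounds (S' τ) := by
      intro τ hτ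
      obtain ⟨h0, h1, h2⟩ := hR τ hτ
      refine ⟨?_, ?_⟩
      · intro x
        ext u
        rw [hmS', h0]
        simp
      · intro i x
        refine ⟨?_, ?_⟩
        · intro u hu
          rw [hmS'] at hu ⊢
          exact (h1 i _).1 hu
        · intro y hy
          have h3 : S τ (i + 1) (ENV_ext W x) = S τ (i + 1) (ENV_ext W y) := by
            refine h2 i _ _ ?_
            intro v hv
            obtain ⟨u, rfl⟩ := ENV_en_surj W v (hΩW v ((h1 i _).2 hv))
            rw [ENV_ext_en, ENV_ext_en]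
            exact (hy u ((hmS' τ i x u).mpr hv)).symm
          ext u
          rw [hmS', hmS', h3]
    have hprS : ∀ τ ∈ T, ∀ i u, (#(univ.filter fun x : EN.Om #W => u ∈ S' τ i x) : ℝ) / 2 ^ #W =
        Pr {β | ENV_en W u ∈ S τ i β} := by
      intro τ hτ i u
      have h1 : {β : V → Bool | ENV_en W u ∈ S τ i β} =
          {β | (fun x => ENV_en W u ∈ S τ i (ENV_ext W x)) (fun i => β (ENV_en W i))} := by
        ext β
        simp only [Set.mem_ofPred_eq]
        rw [hS τ hτ]
      have h4 := hP (fun x => ENV_en W u ∈ S τ i (ENV_ext W x))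
      rw [h1, h4]
      refine congrArg (fun c : ℕ => (c : ℝ) / 2 ^ #W) (congrArg Finset.card ?_)
      ext x
      simp only [mem_filter, mem_univ, true_and]
      exact hmS' τ i x u
    have hprE : Pr E = (#(univ.filter fun x : EN.Om #W => ENV_ext W x ∈ E) : ℝ) / 2 ^ #W := by
      have h1 : E = {β | (fun x => ENV_ext W x ∈ E) (fun i => β (ENV_en W i))} := by
        ext β
        simp only [Set.mem_ofPred_eq]
        rw [hEx]
      conv_lhs => rw [h1]
      exact hP (fun x => ENV_ext W x ∈ E)
    have h2m : (0 : ℝ) < 2 ^ #W := by positivity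
    set Q : EN.Om #W → ℝ := fun x => if ENV_ext W x ∈ E then 1 / (Pr E * 2 ^ #W) else 0 with hQ
    have hLaw : EN.Law Q := by
      refine ⟨?_, ?_⟩
      · intro x
        rw [hQ]
        simp only
        split_ifs
        · positivity
        · exact le_rfl
      · rw [hQ]
        simp only
        rw [← sum_filter, sum_const, nsmul_eq_mul]
        have h1 : (#(univ.filter fun x : EN.Om #W => ENV_ext W x ∈ E) : ℝ) = Pr E * 2 ^ #W := by
          rw [hprE]
          field_simp
        rw [h1]
        have h3 : Pr E * 2 ^ #W ≠ 0 := by positivity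
        rw [mul_one_div, div_self h3]
    have hdep : ∀ x y : EN.Om #W, (∀ u ∈ Λ', x u = y u) → Q x = Q y := by
      intro x y hxy
      have h1 : ENV_ext W x ∈ E ↔ ENV_ext W y ∈ E := by
        refine hE _ _ ?_
        intro v hv
        obtain ⟨u, rfl⟩ := ENV_en_surj W v (hΛW v hv)
        rw [ENV_ext_en, ENV_ext_en]
        exact hxy u (by rw [hΛ', mem_filter]; exact ⟨mem_univ _, hv⟩)
      rw [hQ]
      simp only
      by_cases h : ENV_ext W x ∈ E
      · rw [if_pos h, if_pos (h1.mp h)]
      · rw [if_neg h, if_neg (fun h' => h (h1.mpr h'))]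
    have hL0 : 0 ≤ Real.log (1 / Pr E) := by
      refine Real.log_nonneg ?_
      rw [le_div_iff₀ hp, one_mul]
      exact hle1 E
    have hexp : ∀ x, Q x ≤ Real.exp (Real.log (1 / Pr E)) / 2 ^ #W := by
      intro x
      rw [Real.exp_log (by positivity), hQ]
      simp only
      split_ifs
      · rw [div_div]
      · positivity
    have hins : ∀ u ∈ insert z' Λ', ENV_en W u ∈ insert z Λ := by
      intro u hu
      rw [mem_insert] at hu
      rcases hu with hu | hu
      · rw [hu, hz']
        exact mem_insert_self _ _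
      · rw [hΛ', mem_filter] at hu
        exact mem_insert_of_mem hu.2
    have hmain := enx j #W κ T S' Λ' z' N hRS (by
      intro i v hv
      refine le_trans (le_of_eq ?_) (hN i (ENV_en W v) (hins v hv))
      refine sum_congr rfl ?_
      intro τ hτ
      exact hprS τ hτ i v) Q (Real.log (1 / Pr E)) hLaw hdep hL0 hexp z' (mem_insert_self _ _)
    have hprI : ∀ τ ∈ T, Pr (E ∩ {β | z ∈ S τ (j + 1) β}) =
        Pr E * ∑ x ∈ univ.filter (fun x : EN.Om #W => z' ∈ S' τ (j + 1) x), Q x := by
      intro τ hτ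
      have h1 : E ∩ {β | z ∈ S τ (j + 1) β} =
          {β | (fun x => ENV_ext W x ∈ E ∧ z ∈ S τ (j + 1) (ENV_ext W x))
            (fun i => β (ENV_en W i))} := by
        ext β
        simp only [Set.mem_inter_iff, Set.mem_ofPred_eq]
        rw [hEx, hS τ hτ]
      have h3 := hP (fun x => ENV_ext W x ∈ E ∧ z ∈ S τ (j + 1) (ENV_ext W x))
      rw [h1, h3, hQ]
      simp only
      rw [← sum_filter, sum_const, nsmul_eq_mul, filter_filter]
      have h2 : (univ.filter fun x : EN.Om #W => z' ∈ S' τ (j + 1) x ∧ ENV_ext W x ∈ E) =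
          (univ.filter fun x : Fin #W → Bool =>
            ENV_ext W x ∈ E ∧ z ∈ S τ (j + 1) (ENV_ext W x)) := by
        ext x
        simp only [mem_filter, mem_univ, true_and]
        rw [hmS', hz']
        exact and_comm
      rw [h2]
      field_simp
      refine congrArg (fun c : ℕ => (c : ℝ)) (congrArg Finset.card ?_)
      ext x
      simp only [mem_filter, mem_univ, true_and]
    have hcard : (#Λ' : ℝ) ≤ #Λ := by
      have h1 : #Λ' ≤ #Λ := by
        refine card_le_card_of_injOn (ENV_en W) ?_ ?_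
        · intro u hu
          rw [mem_coe, hΛ', mem_filter] at hu
          exact hu.2
        · intro u _ u' _ h
          exact ENV_en_inj W h
      exact_mod_cast h1
    rw [sum_congr rfl hprI, ← mul_sum]
    refine mul_le_mul_of_nonneg_left ?_ hp.le
    refine hmain.trans ?_
    refine mul_le_mul_of_nonneg_left ?_ hN0
    have hlog0 : 0 ≤ Real.log ((#Λ' : ℝ) + 3) := by
      refine Real.log_nonneg ?_
      have : (0 : ℝ) ≤ #Λ' := Nat.cast_nonneg _
      linarith
    have hlog1 : Real.log ((#Λ' : ℝ) + 3) ≤ Real.log ((#Λ : ℝ) + 3) := by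
      refine Real.log_le_log (by positivity) ?_
      linarith
    refine pow_le_pow_left₀ (by positivity) ?_ j
    refine mul_le_mul_of_nonneg_left ?_ (by norm_num)
    refine add_le_add le_rfl ?_
    exact mul_le_mul_of_nonneg_left hlog1 (by positivity)

end TP.TW
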